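import Mathlib
import Pool.Agent.Lib.MP_3e31c9.Final

/-!
# MP_3e31c9_co: packings of the Boolean lattice with copies of a poset
-/

set_option autoImplicit false

namespace Pool.Agent.Results.MP_3e31c9_co.Packing

open Pool.Agent.Lib.MP_3e31c9

universe u

/-- The Boolean lattice `𝓑_n`: all subsets of an `n`-element set, ordered by inclusion. -/
abbrev BooleanLattice (n : ℕ) : Type := Finset (Fin n)

/-- `S ⊆ 𝓑_n` is a copy of `P`: with the order inherited from `𝓑_n` (inclusion) it is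
isomorphic to `P`. -/
def IsCopy (P : Type u) [PartialOrder P] {n : ℕ} (S : Set (BooleanLattice n)) : Prop :=
  Nonempty (P ≃o S)

/-- `F` is a family of pairwise disjoint copies of `P` in `𝓑_n`. -/
def IsPacking (P : Type u) [PartialOrder P] {n : ℕ} (F : Set (Set (BooleanLattice n))) : Prop :=
  (∀ S ∈ F, IsCopy P S) ∧ ∀ S ∈ F, ∀ T ∈ F, S ≠ T → Disjoint S T

/-! ## From indexed to unindexed families -/

theorem IsPacking.congr {P : Type u} {Q : Type} [PartialOrder P] [PartialOrder Q] (f : P ≃o Q)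
    {n : ℕ} {F : Set (Set (BooleanLattice n))} (h : IsPacking Q F) : IsPacking P F :=
  ⟨fun S hS => (h.1 S hS).map fun g => f.trans g, h.2⟩

theorem packing_of_index {Q J : Type} [PartialOrder Q] {n : ℕ} (e : J × Q → BooleanLattice n)
    (he : Function.Injective e) (ho : ∀ j a b, e (j, a) ≤ e (j, b) ↔ a ≤ b) :
    IsPacking Q {S | ∃ j, S = Set.range fun a => e (j, a)} ∧
      ⋃₀ {S | ∃ j, S = Set.range fun a => e (j, a)} = Set.range e := by
  refine ⟨⟨?_, ?_⟩, ?_⟩
  · rintro S ⟨j, rfl⟩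
    exact ⟨OrderEmbedding.orderIso (f := OrderEmbedding.ofMapLEIff (fun a => e (j, a)) (ho j))⟩
  · rintro S ⟨i, rfl⟩ T ⟨j, rfl⟩ hne
    rw [Set.disjoint_left]
    rintro x ⟨a, rfl⟩ ⟨b, hb⟩
    apply hne
    have h1 := he hb
    simp only [Prod.mk.injEq] at h1
    rw [h1.1]
  · ext x
    constructor
    · rintro ⟨S, ⟨j, rfl⟩, a, rfl⟩
      exact ⟨(j, a), rfl⟩
    · rintro ⟨⟨j, a⟩, rfl⟩
      exact ⟨_, ⟨j, rfl⟩, a, rfl⟩

/-- Tilings in all large dimensions, also for posets with at most one element. -/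
theorem tiles_large (Q : Type) [Fintype Q] [PartialOrder Q] :
    ∃ N : ℕ, ∀ n, N ≤ n → Fintype.card Q ∣ 2 ^ n - 2 → Tiles Q (BooleanLattice n) := by
  have key : ∃ N : ℕ, ∀ n, N ≤ n → Fintype.card Q ∣ 2 ^ n - 2 → Tiles Q (Set (Fin n)) := by
    rcases Nat.lt_or_ge (Fintype.card Q) 2 with hlt | hge
    · rcases Nat.lt_or_ge (Fintype.card Q) 1 with hlt1 | hge1
      · refine ⟨2, fun n hn hdiv => ?_⟩
        exfalso
        have h0 : Fintype.card Q = 0 := by omega
        rw [h0, zero_dvd_iff] at hdiv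
        have h1 : 2 ^ 2 ≤ 2 ^ n := Nat.pow_le_pow_right (by norm_num) hn
        omega
      · have h1 : Fintype.card Q = 1 := by omega
        obtain ⟨a₀, ha₀⟩ := Fintype.card_eq_one_iff.1 h1
        refine ⟨0, fun n _ _ => ?_⟩
        refine ⟨{y : Set (Fin n) // y ≠ ⊥ ∧ y ≠ ⊤}, fun q => q.1.1, ?_, ?_, ?_⟩
        · rintro ⟨i, a⟩ ⟨j, b⟩ h
          have hij : i = j := Subtype.ext h
          rw [ha₀ a, ha₀ b, hij]
        · intro y
          constructor
          · rintro ⟨⟨i, a⟩, rfl⟩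
            exact i.2
          · intro hy
            exact ⟨(⟨y, hy⟩, a₀), rfl⟩
        · intro i a b
          rw [ha₀ a, ha₀ b]
          simp
    · obtain ⟨N, hN⟩ := eventually_G Q hge
      refine ⟨N + 1, fun n hn hdiv => ?_⟩
      obtain ⟨x, rfl⟩ : ∃ x, n = x + 1 := ⟨n - 1, by omega⟩
      exact hN x (by omega) hdiv
  obtain ⟨N, hN⟩ := key
  exact ⟨N, fun n hn hd =>
    Tiles.congr (Fintype.finsetOrderIsoSet (α := Fin n)).symm (hN n hn hd)⟩

/-! ## The packing -/

open Classical in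
/-- The set with left part `A` and right part `B`. -/
noncomputable def join {m r : ℕ} (A : BooleanLattice m) (B : BooleanLattice r) : BooleanLattice (m + r) :=
  Finset.univ.filter fun i => Fin.addCases (motive := fun _ => Prop) (fun a => a ∈ A)
    (fun b => b ∈ B) i

theorem castAdd_mem_join {m r : ℕ} (A : BooleanLattice m) (B : BooleanLattice r) (a : Fin m) :
    Fin.castAdd r a ∈ join A B ↔ a ∈ A := by
  simp [join]

theorem natAdd_mem_join {m r : ℕ} (A : BooleanLattice m) (B : BooleanLattice r) (b : Fin r) :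
    Fin.natAdd m b ∈ join A B ↔ b ∈ B := by
  simp [join]

theorem join_le_join {m r : ℕ} (A A' : BooleanLattice m) (B B' : BooleanLattice r) :
    join A B ≤ join A' B' ↔ A ≤ A' ∧ B ≤ B' := by
  constructor
  · intro h
    exact ⟨fun a ha => (castAdd_mem_join A' B' a).1 (h ((castAdd_mem_join A B a).2 ha)),
      fun b hb => (natAdd_mem_join A' B' b).1 (h ((natAdd_mem_join A B b).2 hb))⟩
  · rintro ⟨h1, h2⟩ i
    refine Fin.addCases (fun a => ?_) (fun b => ?_) i
    · intro h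
      exact (castAdd_mem_join A' B' a).2 (h1 ((castAdd_mem_join A B a).1 h))
    · intro h
      exact (natAdd_mem_join A' B' b).2 (h2 ((natAdd_mem_join A B b).1 h))

theorem join_inj {m r : ℕ} {A A' : BooleanLattice m} {B B' : BooleanLattice r}
    (h : join A B = join A' B') : A = A' ∧ B = B' := by
  have h1 := (join_le_join A A' B B').1 h.le
  have h2 := (join_le_join A' A B' B).1 h.ge
  exact ⟨le_antisymm h1.1 h2.1, le_antisymm h1.2 h2.2⟩

theorem join_surj {m r : ℕ} (x : BooleanLattice (m + r)) : ∃ A B, join A B = x := by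
  refine ⟨Finset.univ.filter fun a => Fin.castAdd r a ∈ x,
    Finset.univ.filter fun b => Fin.natAdd m b ∈ x, ?_⟩
  ext i
  refine Fin.addCases (fun a => ?_) (fun b => ?_) i
  · rw [castAdd_mem_join]
    simp
  · rw [natAdd_mem_join]
    simp

theorem packing_of_tiles {Q : Type} [PartialOrder Q] {m r : ℕ} (h : Tiles Q (BooleanLattice m)) :
    ∃ F : Set (Set (BooleanLattice (m + r))), IsPacking Q F ∧ (⋃₀ F)ᶜ.ncard ≤ 2 * 2 ^ r := by
  obtain ⟨I, e, he, hr, ho⟩ := h
  let e' : (I × BooleanLattice r) × Q → BooleanLattice (m + r) :=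
    fun q => join (e (q.1.1, q.2)) q.1.2
  have he' : Function.Injective e' := by
    rintro ⟨⟨i, B⟩, a⟩ ⟨⟨i', B'⟩, a'⟩ hq
    obtain ⟨h1, h2⟩ := join_inj hq
    have h3 := he h1
    simp only [Prod.mk.injEq] at h3
    simp only at h2
    rw [h3.1, h3.2, h2]
  have ho' : ∀ j a b, e' (j, a) ≤ e' (j, b) ↔ a ≤ b := by
    rintro ⟨i, B⟩ a b
    simp only [e']
    rw [join_le_join, ho i a b]
    simp
  obtain ⟨hp, hu⟩ := packing_of_index e' he' ho'
  refine ⟨_, hp, ?_⟩
  rw [hu]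
  have hsub : (Set.range e')ᶜ ⊆
      Set.range fun q : Bool × BooleanLattice r => join (if q.1 then (⊤ : BooleanLattice m) else ⊥) q.2 := by
    intro x hx
    obtain ⟨A, B, rfl⟩ := join_surj x
    by_cases hA : A ≠ ⊥ ∧ A ≠ ⊤
    · obtain ⟨⟨i, a⟩, hq⟩ := (hr A).2 hA
      exact absurd ⟨((i, B), a), by simp only [e', hq]⟩ hx
    · by_cases hb : A = ⊥
      · exact ⟨(false, B), by simp [hb]⟩
      · have ht : A = ⊤ := by
          by_contra ht
          exact hA ⟨hb, ht⟩
        exact ⟨(true, B), by simp [ht]⟩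
  refine (Set.ncard_le_ncard hsub (Set.toFinite _)).trans ?_
  rw [← Set.image_univ]
  refine (Set.ncard_image_le (Set.toFinite _)).trans ?_
  rw [Set.ncard_univ, Nat.card_eq_fintype_card]
  simp

/-- `2 ^ m ≡ 2` modulo `k` for `m = 1 + φ t`, if `k = q` or `k = 2 q` with `q` odd. -/
theorem dvd_pow_sub_two (k : ℕ) (hk : ¬ 4 ∣ k) :
    ∃ T : ℕ, 0 < T ∧ ∀ t, k ∣ 2 ^ (1 + T * t) - 2 := by
  obtain ⟨q, hq, hkq⟩ : ∃ q : ℕ, q % 2 = 1 ∧ k ∣ 2 * q := by
    rcases Nat.even_or_odd' k with ⟨c, hc | hc⟩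
    · refine ⟨c, ?_, by rw [hc]⟩
      by_contra hcon
      exact hk ⟨c / 2, by omega⟩
    · exact ⟨k, by omega, Dvd.intro_left 2 rfl⟩
  have hcop : Nat.Coprime 2 q := (Nat.coprime_two_left).2 (Nat.odd_iff.2 hq)
  refine ⟨Nat.totient q, Nat.totient_pos.2 (by omega), fun t => hkq.trans ?_⟩
  have h1 : (2 ^ Nat.totient q) ^ t ≡ 1 ^ t [MOD q] := (Nat.ModEq.pow_totient hcop).pow t
  rw [one_pow, ← pow_mul] at h1
  have h2 : q ∣ 2 ^ (Nat.totient q * t) - 1 :=
    (Nat.modEq_iff_dvd' Nat.one_le_two_pow).1 h1.symm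
  have h3 : 2 ^ (1 + Nat.totient q * t) - 2 = 2 * (2 ^ (Nat.totient q * t) - 1) := by
    rw [pow_add, pow_one, Nat.mul_sub]
  rw [h3]
  exact Nat.mul_dvd_mul_left 2 h2

/-- The packing for one poset. -/
theorem packing_one (Q : Type) [Fintype Q] [PartialOrder Q] (h4 : ¬ 4 ∣ Fintype.card Q) :
    ∃ c : ℕ, ∀ n : ℕ, ∃ F : Set (Set (BooleanLattice n)),
      IsPacking Q F ∧ (⋃₀ F)ᶜ.ncard ≤ c := by
  classical
  obtain ⟨N, hN⟩ := tiles_large Q
  obtain ⟨T, hT, hdiv⟩ := dvd_pow_sub_two _ h4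
  refine ⟨2 ^ (N + T + 1), fun n => ?_⟩
  rcases Nat.lt_or_ge n (N + T + 1) with hn | hn
  · refine ⟨∅, ⟨fun S hS => absurd hS (Set.notMem_empty S),
      fun S hS => absurd hS (Set.notMem_empty S)⟩, ?_⟩
    rw [Set.sUnion_empty, Set.compl_empty, Set.ncard_univ, Nat.card_eq_fintype_card]
    simp only [Fintype.card_finset, Fintype.card_fin]
    exact Nat.pow_le_pow_right (by norm_num) hn.le
  · have h1 : T * ((n - 1) / T) + (n - 1) % T = n - 1 := Nat.div_add_mod _ _
    have h2 : (n - 1) % T < T := Nat.mod_lt _ hT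
    obtain ⟨m, r, hm, hr, rfl⟩ : ∃ m r, m = 1 + T * ((n - 1) / T) ∧ r < T ∧ n = m + r :=
      ⟨_, (n - 1) % T, rfl, h2, by omega⟩
    have h3 : Fintype.card Q ∣ 2 ^ m - 2 := by
      rw [hm]
      exact hdiv _
    obtain ⟨F, hF, hc⟩ := packing_of_tiles (r := r) (hN m (by omega) h3)
    refine ⟨F, hF, hc.trans ?_⟩
    calc 2 * 2 ^ r = 2 ^ (r + 1) := by ring
      _ ≤ 2 ^ (N + T + 1) := Nat.pow_le_pow_right (by norm_num) (by omega)

/-- Let `p` be a number that is not a multiple of `4`. There is a constant `c` such that for every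
poset `P` with `p` elements and every `n`, all but at most `c` elements of the Boolean lattice
`𝓑_n` can be covered by pairwise disjoint copies of `P`. -/
theorem result (p : ℕ) (hp : ¬ 4 ∣ p) :
    ∃ c : ℕ, ∀ (P : Type u) [PartialOrder P], Nat.card P = p →
      ∀ n : ℕ, ∃ F : Set (Set (BooleanLattice n)), IsPacking P F ∧ (⋃₀ F)ᶜ.ncard ≤ c := by
  classical
  have hfin : Finite (PartialOrder (Fin p)) :=
    Finite.of_injective (fun inst : PartialOrder (Fin p) => fun a b : Fin p => inst.le a b)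
      (fun i j hij => PartialOrder.ext fun a b => by
        have h1 := congrFun (congrFun hij a) b
        exact iff_of_eq h1)
  have : Fintype (PartialOrder (Fin p)) := Fintype.ofFinite _
  have key : ∀ inst : PartialOrder (Fin p), ∃ c : ℕ, ∀ n : ℕ, ∃ F : Set (Set (BooleanLattice n)),
      @IsPacking (Fin p) inst n F ∧ (⋃₀ F)ᶜ.ncard ≤ c := fun inst =>
    @packing_one (Fin p) _ inst (by rwa [Fintype.card_fin])
  choose c hc using key
  refine ⟨Finset.univ.sup c, fun P _ hP n => ?_⟩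
  have hP0 : Nat.card P ≠ 0 := by
    rintro h0
    exact hp (by rw [← hP, h0]; exact dvd_zero 4)
  have : Finite P := Nat.finite_of_card_ne_zero hP0
  have φ₀ : P ≃ Fin p := (Finite.equivFin P).trans (finCongr hP)
  let inst : PartialOrder (Fin p) := PartialOrder.lift φ₀.symm φ₀.symm.injective
  obtain ⟨F, hF, hn⟩ := hc inst n
  have φ : @OrderIso P (Fin p) _ inst.toLE := by
    refine { toEquiv := φ₀, map_rel_iff' := ?_ }
    intro a b
    change φ₀.symm (φ₀ a) ≤ φ₀.symm (φ₀ b) ↔ a ≤ b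
    rw [Equiv.symm_apply_apply, Equiv.symm_apply_apply]
  exact ⟨F, @IsPacking.congr P (Fin p) _ inst φ n F hF,
    hn.trans (Finset.le_sup (f := c) (Finset.mem_univ inst))⟩

end Pool.Agent.Results.MP_3e31c9_co.Packing
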