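import Pool.Agent.Lib.MP_3e31c9.Final

/-!
# Partitions of the truncated Boolean lattice into copies of a poset

The threshold depends on the number of elements of the poset only.
-/

set_option autoImplicit false

universe u v

namespace Pool.Agent.Results.MP_3e31c9_co.UniformPartition

/-- `S` is a copy of `P` in `Q`: with the order inherited from `Q` it is isomorphic to `P`. -/
def IsCopy (P : Type v) {Q : Type u} [PartialOrder P] [PartialOrder Q] (S : Set Q) : Prop :=
  Nonempty (P ≃o S)

/-- `Q` is the union of a family of pairwise disjoint copies of `P` in `Q`. -/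
def HasPartition (P : Type v) (Q : Type u) [PartialOrder P] [PartialOrder Q] : Prop :=
  ∃ C : Set (Set Q), (∀ S ∈ C, IsCopy P S) ∧ (∀ S ∈ C, ∀ T ∈ C, S ≠ T → Disjoint S T) ∧
    ⋃₀ C = Set.univ

/-- The truncated Boolean lattice of `X`: the subsets of `X` other than the empty set and `X`,
ordered by inclusion. -/
abbrev Truncated (X : Type u) : Type u := {s : Set X // s ≠ ∅ ∧ s ≠ Set.univ}

/-- The number of elements of the poset divides the number of elements of the partitioned one. -/
theorem card_dvd (P : Type v) (Q : Type u) [PartialOrder P] [PartialOrder Q]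
    (h : HasPartition P Q) : Nat.card P ∣ Nat.card Q := by
  classical
  obtain ⟨C, h1, h2, h3⟩ := h
  let F : ∀ S : C, P ≃o S.1 := fun S => (h1 S.1 S.2).some
  let g : C × P → Q := fun x => (F x.1 x.2 : Q)
  have hg : Function.Bijective g := by
    constructor
    · rintro ⟨S, a⟩ ⟨T, b⟩ hab
      have hab' : (F S a : Q) = (F T b : Q) := hab
      have hST : S = T := by
        by_contra hne
        have hd := h2 S.1 S.2 T.1 T.2 (fun h => hne (Subtype.ext h))
        exact Set.disjoint_left.1 hd (F S a).2 (hab' ▸ (F T b).2)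
      subst hST
      have := (F S).injective (Subtype.ext hab')
      rw [this]
    · intro q
      have hq : q ∈ ⋃₀ C := h3 ▸ Set.mem_univ q
      obtain ⟨S, hS, hqS⟩ := hq
      refine ⟨(⟨S, hS⟩, (F ⟨S, hS⟩).symm ⟨q, hqS⟩), ?_⟩
      simp [g]
  have := Nat.card_congr (Equiv.ofBijective g hg)
  rw [← this, Nat.card_prod]
  exact Dvd.intro_left _ rfl

/-- The number of elements of the truncated Boolean lattice. -/
theorem card_truncated (X : Type u) [Finite X] [Nonempty X] :
    Nat.card (Truncated X) = 2 ^ Nat.card X - 2 := by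
  classical
  have : Fintype X := Fintype.ofFinite X
  have h1 : Nat.card (Truncated X) = (({∅, Set.univ} : Set (Set X))ᶜ).ncard := by
    rw [← Nat.card_coe_set_eq]
    apply Nat.card_congr
    apply Equiv.subtypeEquivRight
    intro s
    simp
  rw [h1, Set.ncard_compl, Set.ncard_pair Set.empty_ne_univ, Nat.card_eq_fintype_card,
    Fintype.card_set, Nat.card_eq_fintype_card]

open Pool.Agent.Lib.MP_3e31c9

/-- From the tilings of the library to partitions. -/
theorem hasPartition_of_tiles {P' : Type} [PartialOrder P'] {n : ℕ} (h : Tiles P' (Set (Fin n)))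
    (P : Type v) [PartialOrder P] (φ : P ≃o P') (X : Type u) (f : X ≃ Fin n) :
    HasPartition P (Truncated X) := by
  obtain ⟨I, e, he, hr, ho⟩ := h
  let g : I → P → Truncated X := fun i a => ⟨f ⁻¹' (e (i, φ a)), by
    have h1 := (hr (e (i, φ a))).1 ⟨_, rfl⟩
    constructor
    · intro h
      apply h1.1
      have := (Set.preimage_eq_empty_iff.1 h)
      rw [f.surjective.range_eq, Set.disjoint_univ] at this
      exact this
    · intro h
      apply h1.2
      rw [Set.preimage_eq_univ_iff, f.surjective.range_eq] at h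
      exact Set.univ_subset_iff.1 h⟩
  have hgle : ∀ i a b, g i a ≤ g i b ↔ a ≤ b := by
    intro i a b
    rw [← Subtype.coe_le_coe]
    change f ⁻¹' (e (i, φ a)) ⊆ f ⁻¹' (e (i, φ b)) ↔ _
    rw [f.surjective.preimage_subset_preimage_iff]
    exact (ho i (φ a) (φ b)).trans φ.le_iff_le
  have hginj : ∀ i j a b, g i a = g j b → i = j := by
    intro i j a b h
    have h1 : f ⁻¹' (e (i, φ a)) = f ⁻¹' (e (j, φ b)) := congrArg Subtype.val h
    have h2 := he (f.surjective.preimage_injective h1)
    exact congrArg Prod.fst h2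
  refine ⟨Set.range fun i => Set.range (g i), ?_, ?_, ?_⟩
  · rintro _ ⟨i, rfl⟩
    exact ⟨(OrderEmbedding.ofMapLEIff (g i) (hgle i)).orderIso⟩
  · rintro _ ⟨i, rfl⟩ _ ⟨j, rfl⟩ hne
    rw [Set.disjoint_left]
    rintro _ ⟨a, rfl⟩ ⟨b, hb⟩
    exact hne (by rw [hginj j i b a hb])
  · rw [Set.eq_univ_iff_forall]
    rintro ⟨s, hs1, hs2⟩
    have h1 : f '' s ≠ ⊥ ∧ f '' s ≠ ⊤ := by
      constructor
      · intro h
        exact hs1 (Set.image_eq_empty.1 h)
      · intro h
        apply hs2
        have h2 : f '' s = f '' Set.univ := by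
          rw [h, Set.image_univ, f.surjective.range_eq]
          rfl
        exact f.injective.image_injective h2
    obtain ⟨⟨i, a⟩, hia⟩ := (hr (f '' s)).2 h1
    refine ⟨_, ⟨i, rfl⟩, φ.symm a, ?_⟩
    apply Subtype.ext
    change f ⁻¹' (e (i, φ (φ.symm a))) = s
    rw [OrderIso.apply_symm_apply, hia, f.injective.preimage_image]

/-- One order relation on `p` elements. -/
theorem one_order (p : ℕ) (r : Fin p → Fin p → Prop) : ∃ N : ℕ, ∀ (inst : PartialOrder (Fin p)),
    (∀ a b, inst.le a b ↔ r a b) → ∀ n, N ≤ n → p ∣ 2 ^ n - 2 →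
      @Tiles (Fin p) (Set (Fin n)) inst _ _ := by
  by_cases hr : ∃ inst : PartialOrder (Fin p), ∀ a b, inst.le a b ↔ r a b
  · obtain ⟨inst, hinst⟩ := hr
    have key : ∃ N : ℕ, ∀ n, N ≤ n → p ∣ 2 ^ n - 2 → @Tiles (Fin p) (Set (Fin n)) inst _ _ := by
      rcases Nat.lt_or_ge p 2 with hlt | hge
      · rcases Nat.lt_or_ge p 1 with hlt1 | hge1
        · refine ⟨2, fun n hn hdiv => ?_⟩
          exfalso
          have h0 : p = 0 := by omega
          rw [h0, zero_dvd_iff] at hdiv
          have h1 : 2 ^ 2 ≤ 2 ^ n := Nat.pow_le_pow_right (by norm_num) hn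
          omega
        · have h1 : p = 1 := by omega
          subst h1
          refine ⟨0, fun n _ _ => ⟨{y : Set (Fin n) // y ≠ ⊥ ∧ y ≠ ⊤}, fun q => q.1.1, ?_, ?_, ?_⟩⟩
          · rintro ⟨i, a⟩ ⟨j, b⟩ h
            have hij : i = j := Subtype.ext h
            rw [hij, Subsingleton.elim a b]
          · intro y
            constructor
            · rintro ⟨⟨i, a⟩, rfl⟩
              exact i.2
            · intro hy
              exact ⟨(⟨y, hy⟩, 0), rfl⟩
          · intro i a b
            rw [Subsingleton.elim a b]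
            simp
      · obtain ⟨N, hN⟩ := @eventually_G (Fin p) _ inst (by rw [Fintype.card_fin]; exact hge)
        refine ⟨N + 1, fun n hn hdiv => ?_⟩
        obtain ⟨x, rfl⟩ : ∃ x, n = x + 1 := ⟨n - 1, by omega⟩
        exact hN x (by omega) (by rw [Fintype.card_fin]; exact hdiv)
    obtain ⟨N, hN⟩ := key
    refine ⟨N, fun inst' h' => ?_⟩
    have : inst' = inst := by
      apply PartialOrder.ext
      intro a b
      exact (h' a b).trans (hinst a b).symm
    rw [this]
    exact hN
  · exact ⟨0, fun inst h => absurd ⟨inst, h⟩ hr⟩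

/-- For every `p` there is `N` such that for every finite set `X` with at least `N` elements and
every poset `P` with `p` elements: the truncated Boolean lattice of `X` has a partition into
copies of `P` if and only if `p` divides `2 ^ |X| - 2`. -/
theorem result (p : ℕ) : ∃ N : ℕ, ∀ (X : Type u) [Finite X], N ≤ Nat.card X →
    ∀ (P : Type v) [Finite P] [PartialOrder P], Nat.card P = p →
      (HasPartition P (Truncated X) ↔ p ∣ 2 ^ Nat.card X - 2) := by
  classical
  choose N hN using one_order p
  refine ⟨Finset.univ.sup N + 1, ?_⟩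
  intro X _ hX P _ _ hP
  have hXne : Nonempty X := (Nat.card_pos_iff.1 (by omega)).1
  constructor
  · intro h
    have h1 := card_dvd P (Truncated X) h
    rw [hP, card_truncated] at h1
    exact h1
  · intro hdiv
    have f : X ≃ Fin (Nat.card X) := Finite.equivFin X
    have φ₀ : P ≃ Fin p := (Finite.equivFin P).trans (finCongr hP)
    let inst : PartialOrder (Fin p) := PartialOrder.lift φ₀.symm φ₀.symm.injective
    have h1 := hN (fun a b => φ₀.symm a ≤ φ₀.symm b) inst (fun a b => Iff.rfl) (Nat.card X)
      (by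
        have : N (fun a b => φ₀.symm a ≤ φ₀.symm b) ≤ Finset.univ.sup N :=
          Finset.le_sup (Finset.mem_univ _)
        omega) hdiv
    have φ : @OrderIso P (Fin p) _ inst.toLE := by
      refine { toEquiv := φ₀, map_rel_iff' := ?_ }
      intro a b
      change φ₀.symm (φ₀ a) ≤ φ₀.symm (φ₀ b) ↔ a ≤ b
      rw [Equiv.symm_apply_apply, Equiv.symm_apply_apply]
    exact @hasPartition_of_tiles (Fin p) inst (Nat.card X) h1 P _ φ X f

end Pool.Agent.Results.MP_3e31c9_co.UniformPartition
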